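import Mathlib

/-!
# Polynomials that count the points near given nodes
-/

set_option autoImplicit false

namespace Pool.Agent.Q318.SymF

open Polynomial

theorem poly_bound (R : ℝ[X]) : ∃ (C : ℝ) (e : ℕ), 0 ≤ C ∧ ∀ e' : ℕ, e ≤ e' → ∀ y : ℝ,
    |R.eval y| ≤ C * (1 + y ^ 2) ^ e' := by
  induction R using Polynomial.induction_on with
  | C a =>
    refine ⟨|a|, 0, abs_nonneg _, fun e' _ y => ?_⟩
    rw [eval_C]
    have : (1 : ℝ) ≤ (1 + y ^ 2) ^ e' := one_le_pow₀ (by nlinarith [sq_nonneg y])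
    nlinarith [abs_nonneg a]
  | add p q hp hq =>
    obtain ⟨C1, e1, h1, b1⟩ := hp
    obtain ⟨C2, e2, h2, b2⟩ := hq
    refine ⟨C1 + C2, e1 + e2, by positivity, fun e' he y => ?_⟩
    rw [eval_add]
    calc |p.eval y + q.eval y| ≤ |p.eval y| + |q.eval y| := abs_add_le _ _
      _ ≤ C1 * (1 + y ^ 2) ^ e' + C2 * (1 + y ^ 2) ^ e' :=
        add_le_add (b1 e' (by omega) y) (b2 e' (by omega) y)
      _ = _ := by ring
  | monomial n a ih =>
    refine ⟨|a|, n + 1, abs_nonneg _, fun e' he y => ?_⟩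
    rw [eval_mul, eval_C, eval_pow, eval_X, abs_mul, abs_pow]
    have h1 : |y| ≤ 1 + y ^ 2 := by
      rw [abs_le]; constructor <;> nlinarith [sq_nonneg (y + 1), sq_nonneg (y - 1)]
    have h2 : (1 : ℝ) ≤ 1 + y ^ 2 := by nlinarith [sq_nonneg y]
    have h3 : |y| ^ (n + 1) ≤ (1 + y ^ 2) ^ e' :=
      (pow_le_pow_left₀ (abs_nonneg _) h1 _).trans (pow_le_pow_right₀ h2 he)
    exact mul_le_mul_of_nonneg_left h3 (abs_nonneg _)

/-- the Lagrange polynomial of the node `b`, nodes `0, …, N` -/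
noncomputable def lag (N b : ℕ) : ℚ[X] := Lagrange.basis (Finset.range (N + 1)) (fun i : ℕ => (i : ℚ)) b

theorem lag_eval {N a b : ℕ} (ha : a ≤ N) (hb : b ≤ N) :
    (lag N b).eval (a : ℚ) = if a = b then 1 else 0 := by
  unfold lag
  by_cases h : a = b
  · subst h
    rw [if_pos rfl]
    exact Lagrange.eval_basis_self (s := Finset.range (N + 1)) (v := fun i : ℕ => (i : ℚ))
      (by intro x _ y _ h; simpa using h) (Finset.mem_range.2 (by omega))
  · rw [if_neg h]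
    exact Lagrange.eval_basis_of_ne (s := Finset.range (N + 1)) (v := fun i : ℕ => (i : ℚ))
      (fun h' => h h'.symm) (Finset.mem_range.2 (by omega))

/-- the counting polynomial of the node `b` -/
noncomputable def cnt (N b : ℕ) : ℚ[X] := 3 * lag N b ^ 2 - 2 * lag N b ^ 3

theorem cnt_eval {N a b : ℕ} (ha : a ≤ N) (hb : b ≤ N) :
    (cnt N b).eval (a : ℚ) = if a = b then 1 else 0 := by
  unfold cnt
  have h3 : (3 : ℚ[X]) = C 3 := rfl
  have h2 : (2 : ℚ[X]) = C 2 := rfl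
  rw [h3, h2]
  simp only [eval_sub, eval_mul, eval_pow, eval_C, lag_eval ha hb]
  split_ifs <;> norm_num

/-- near a node the counting polynomial is constant up to second order -/
theorem cnt_dvd {N a b : ℕ} (ha : a ≤ N) (hb : b ≤ N) :
    (X - C (a : ℚ)) ^ 2 ∣ cnt N b - C (if a = b then 1 else 0) := by
  have h1 : (X - C (a : ℚ)) ∣ lag N b - C (if a = b then 1 else 0) := by
    rw [dvd_iff_isRoot, IsRoot, eval_sub, eval_C, lag_eval ha hb, sub_self]
  unfold cnt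
  by_cases h : a = b
  · rw [if_pos h] at h1 ⊢
    have : 3 * lag N b ^ 2 - 2 * lag N b ^ 3 - C (1 : ℚ) =
        (lag N b - C 1) ^ 2 * (-(2 * lag N b + 1)) := by
      rw [C_1]; ring
    rw [this]
    exact Dvd.dvd.mul_right (pow_dvd_pow_of_dvd h1 2) _
  · rw [if_neg h] at h1 ⊢
    have : 3 * lag N b ^ 2 - 2 * lag N b ^ 3 - C (0 : ℚ) =
        (lag N b - C 0) ^ 2 * (3 - 2 * lag N b) := by
      rw [C_0]; ring
    rw [this]
    exact Dvd.dvd.mul_right (pow_dvd_pow_of_dvd h1 2) _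

/-- the penalty polynomial -/
noncomputable def pen (N e : ℕ) : ℚ[X] :=
  (∏ a ∈ Finset.range (N + 1), (X - C (a : ℚ)) ^ 2) * (1 + X ^ 2) ^ e

theorem pen_eval_node {N e a : ℕ} (ha : a ≤ N) : (pen N e).eval (a : ℚ) = 0 := by
  unfold pen
  rw [eval_mul, eval_prod, Finset.prod_eq_zero (Finset.mem_range.2 (by omega : a < N + 1)), zero_mul]
  simp

theorem aeval_pen (N e : ℕ) (y : ℝ) :
    aeval y (pen N e) = (∏ a ∈ Finset.range (N + 1), (y - (a : ℝ)) ^ 2) * (1 + y ^ 2) ^ e := by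
  unfold pen
  rw [map_mul, map_prod]
  simp

theorem pen_nonneg (N e : ℕ) (y : ℝ) : 0 ≤ aeval y (pen N e) := by
  rw [aeval_pen]
  exact mul_nonneg (Finset.prod_nonneg fun _ _ => sq_nonneg _) (by positivity)

theorem exists_count (N : ℕ) : ∃ (e : ℕ) (K : ℝ), 0 < K ∧
    ∀ y : ℝ, ∃ m : ℕ → ℤ, ∀ b, b ≤ N → |aeval y (cnt N b) - m b| ≤ K * aeval y (pen N e) := by
  classical
  -- quotients
  have hquot : ∀ p : Fin (N + 1) × Fin (N + 1), ∃ (C' : ℝ) (e : ℕ), 0 ≤ C' ∧ ∀ e' : ℕ, e ≤ e' → ∀ y : ℝ,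
      |aeval y (cnt N p.2) - (if (p.1 : ℕ) = p.2 then 1 else 0 : ℝ)| ≤
        (y - (p.1 : ℕ)) ^ 2 * (C' * (1 + y ^ 2) ^ e') := by
    intro p
    have hp1 : (p.1 : ℕ) ≤ N := by have := p.1.2; omega
    have hp2 : (p.2 : ℕ) ≤ N := by have := p.2.2; omega
    obtain ⟨R, hR⟩ := cnt_dvd hp1 hp2
    obtain ⟨C', e, hC, hb⟩ := poly_bound (R.map (algebraMap ℚ ℝ))
    refine ⟨C', e, hC, fun e' he y => ?_⟩
    have h1 : aeval y (cnt N p.2) - (if (p.1 : ℕ) = p.2 then 1 else 0 : ℝ) =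
        (y - (p.1 : ℕ)) ^ 2 * (R.map (algebraMap ℚ ℝ)).eval y := by
      have h2 := congrArg (fun P => aeval y P) hR
      simp only [map_sub, map_mul, map_pow, aeval_X, aeval_C] at h2
      rw [eval_map_algebraMap, ← show aeval y (cnt N p.2) - (algebraMap ℚ ℝ) (if (p.1 : ℕ) = p.2 then 1 else 0) =
        aeval y (cnt N p.2) - (if (p.1 : ℕ) = p.2 then 1 else 0 : ℝ) from by split_ifs <;> simp, h2]
      simp
    rw [h1, abs_mul, abs_of_nonneg (sq_nonneg (y - ((p.1 : ℕ) : ℝ)))]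
    exact mul_le_mul_of_nonneg_left (hb e' he y) (sq_nonneg _)
  have hpoly : ∀ p : Fin (N + 1), ∃ (C' : ℝ) (e : ℕ), 0 ≤ C' ∧ ∀ e' : ℕ, e ≤ e' → ∀ y : ℝ,
      |aeval y (cnt N p)| ≤ C' * (1 + y ^ 2) ^ e' := by
    intro p
    obtain ⟨C', e, hC, hb⟩ := poly_bound ((cnt N p).map (algebraMap ℚ ℝ))
    refine ⟨C', e, hC, fun e' he y => ?_⟩
    have := hb e' he y
    rwa [eval_map_algebraMap] at this
  choose C1 e1 hC1 hb1 using hquot
  choose C2 e2 hC2 hb2 using hpoly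
  set e := (∑ p, e1 p) + ∑ p, e2 p with he
  have he1 : ∀ p, e1 p ≤ e := fun p => by
    have := Finset.single_le_sum (f := e1) (fun _ _ => Nat.zero_le _) (Finset.mem_univ p)
    omega
  have he2 : ∀ p, e2 p ≤ e := fun p => by
    have := Finset.single_le_sum (f := e2) (fun _ _ => Nat.zero_le _) (Finset.mem_univ p)
    omega
  set K := ((∑ p, C1 p) + (∑ p, C2 p) + 1) * 4 ^ (N + 1) with hK
  have hS1 : 0 ≤ ∑ p, C1 p := Finset.sum_nonneg fun p _ => hC1 p
  have hS2 : 0 ≤ ∑ p, C2 p := Finset.sum_nonneg fun p _ => hC2 p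
  refine ⟨e, K, by positivity, fun y => ?_⟩
  have hy : (0 : ℝ) < (1 + y ^ 2) ^ e := by positivity
  by_cases hnear : ∃ a, a ≤ N ∧ |y - (a : ℝ)| ≤ 1 / 2
  · obtain ⟨a, ha, hya⟩ := hnear
    refine ⟨fun b => if a = b then 1 else 0, fun b hb => ?_⟩
    have h1 := hb1 (⟨a, by omega⟩, ⟨b, by omega⟩) e (he1 _) y
    simp only at h1
    have h2 : C1 (⟨a, by omega⟩, ⟨b, by omega⟩) ≤ ∑ p, C1 p :=
      Finset.single_le_sum (f := C1) (fun p _ => hC1 p) (Finset.mem_univ _)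
    have h3 : (1 / 4 : ℝ) ^ N * (y - a) ^ 2 ≤ ∏ a' ∈ Finset.range (N + 1), (y - (a' : ℝ)) ^ 2 := by
      rw [← Finset.mul_prod_erase _ _ (Finset.mem_range.2 (by omega : a < N + 1)), mul_comm]
      refine mul_le_mul_of_nonneg_left ?_ (sq_nonneg _)
      have hcard : (Finset.erase (Finset.range (N + 1)) a).card = N := by
        rw [Finset.card_erase_of_mem (Finset.mem_range.2 (by omega)), Finset.card_range]
        rfl
      have hcard' : (1 / 4 : ℝ) ^ N = ∏ _c ∈ Finset.erase (Finset.range (N + 1)) a, (1 / 4 : ℝ) := by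
        rw [Finset.prod_const, hcard]
      rw [hcard']
      refine Finset.prod_le_prod (fun _ _ => by norm_num) fun c hc => ?_
      have hca : c ≠ a := Finset.ne_of_mem_erase hc
      have h4 : (1 : ℝ) ≤ |(a : ℝ) - c| := by
        have h5 : (1 : ℤ) ≤ |(a : ℤ) - c| := Int.one_le_abs (by omega)
        exact_mod_cast h5
      have h6 : 1 / 2 ≤ |y - (c : ℝ)| := by
        have h7 : |(a : ℝ) - c| ≤ |y - c| + |y - a| := by
          have := abs_sub_abs_le_abs_sub (y - (c : ℝ)) (y - a)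
          have h8 : (y - (c : ℝ)) - (y - a) = a - c := by ring
          calc |(a : ℝ) - c| = |(y - (c : ℝ)) - (y - a)| := by rw [h8]
            _ ≤ _ := abs_sub _ _
        linarith
      have h9 : (1 / 2 : ℝ) ^ 2 ≤ |y - (c : ℝ)| ^ 2 := pow_le_pow_left₀ (by norm_num) h6 2
      rw [sq_abs] at h9
      linarith
    rw [aeval_pen]
    have h10 : ((if a = b then 1 else 0 : ℤ) : ℝ) = (if a = b then 1 else 0 : ℝ) := by split_ifs <;> simp
    rw [h10]
    refine h1.trans ?_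
    have hA : 0 ≤ (y - (a : ℝ)) ^ 2 := sq_nonneg _
    have h11 : K * ((1 / 4 : ℝ) ^ N * (y - a) ^ 2) ≤
        K * ∏ a' ∈ Finset.range (N + 1), (y - (a' : ℝ)) ^ 2 :=
      mul_le_mul_of_nonneg_left h3 (by positivity)
    have h12 : K * ((1 / 4 : ℝ) ^ N * (y - a) ^ 2) = 4 * ((∑ p, C1 p) + (∑ p, C2 p) + 1) * (y - a) ^ 2 := by
      rw [hK, pow_succ]
      have : (4 : ℝ) ^ N * (1 / 4) ^ N = 1 := by rw [← mul_pow]; norm_num
      linear_combination (((∑ p, C1 p) + (∑ p, C2 p) + 1) * 4 * (y - a) ^ 2) * this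
    have h13 : C1 (⟨a, by omega⟩, ⟨b, by omega⟩) * (y - (a : ℝ)) ^ 2 ≤
        K * ∏ a' ∈ Finset.range (N + 1), (y - (a' : ℝ)) ^ 2 := by
      refine le_trans ?_ h11
      rw [h12]
      refine mul_le_mul_of_nonneg_right ?_ hA
      linarith
    calc (y - (a : ℝ)) ^ 2 * (C1 (⟨a, by omega⟩, ⟨b, by omega⟩) * (1 + y ^ 2) ^ e)
        = (C1 (⟨a, by omega⟩, ⟨b, by omega⟩) * (y - (a : ℝ)) ^ 2) * (1 + y ^ 2) ^ e := by ring
      _ ≤ (K * ∏ a' ∈ Finset.range (N + 1), (y - (a' : ℝ)) ^ 2) * (1 + y ^ 2) ^ e :=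
        mul_le_mul_of_nonneg_right h13 hy.le
      _ = _ := by ring
  · push Not at hnear
    refine ⟨fun _ => 0, fun b hb => ?_⟩
    have h1 := hb2 ⟨b, by omega⟩ e (he2 _) y
    simp only at h1
    have h2 : C2 ⟨b, by omega⟩ ≤ ∑ p, C2 p :=
      Finset.single_le_sum (f := C2) (fun p _ => hC2 p) (Finset.mem_univ _)
    have h3 : (1 / 4 : ℝ) ^ (N + 1) ≤ ∏ a' ∈ Finset.range (N + 1), (y - (a' : ℝ)) ^ 2 := by
      have : (1 / 4 : ℝ) ^ (N + 1) = ∏ _a' ∈ Finset.range (N + 1), (1 / 4 : ℝ) := by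
        rw [Finset.prod_const, Finset.card_range]
      rw [this]
      refine Finset.prod_le_prod (fun _ _ => by norm_num) fun c hc => ?_
      have h6 := (hnear c (by have := Finset.mem_range.1 hc; omega)).le
      have h9 : (1 / 2 : ℝ) ^ 2 ≤ |y - (c : ℝ)| ^ 2 := pow_le_pow_left₀ (by norm_num) h6 2
      rw [sq_abs] at h9
      linarith
    rw [aeval_pen]
    have h11 : K * (1 / 4 : ℝ) ^ (N + 1) ≤ K * ∏ a' ∈ Finset.range (N + 1), (y - (a' : ℝ)) ^ 2 :=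
      mul_le_mul_of_nonneg_left h3 (by positivity)
    have h12 : K * (1 / 4 : ℝ) ^ (N + 1) = (∑ p, C1 p) + (∑ p, C2 p) + 1 := by
      rw [hK]
      have : (4 : ℝ) ^ (N + 1) * (1 / 4) ^ (N + 1) = 1 := by rw [← mul_pow]; norm_num
      linear_combination ((∑ p, C1 p) + (∑ p, C2 p) + 1) * this
    push_cast
    rw [sub_zero]
    refine h1.trans ?_
    calc C2 ⟨b, by omega⟩ * (1 + y ^ 2) ^ e
        ≤ (K * ∏ a' ∈ Finset.range (N + 1), (y - (a' : ℝ)) ^ 2) * (1 + y ^ 2) ^ e :=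
          mul_le_mul_of_nonneg_right (by linarith) hy.le
      _ = _ := by ring

end Pool.Agent.Q318.SymF
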