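import Mathlib
import Pool.Agent.Q318.SymF.One

/-!
# Polynomials in the power sums, as lists of monomials; homogenisation
-/

set_option autoImplicit false

namespace Pool.Agent.Q318.SymF

open Polynomial

/-- value of a list of monomials in the power sums `p k` -/
noncomputable def ev (T : List (ℚ × List ℕ)) (p : ℕ → ℝ) : ℝ :=
  (T.map fun m => (m.1 : ℝ) * (m.2.map p).prod).sum

/-- only power sums of positive index occur -/
def Good (T : List (ℚ × List ℕ)) : Prop := ∀ m ∈ T, ∀ k ∈ m.2, 1 ≤ k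

/-- representable functions of the power sums -/
def Rep (φ : (ℕ → ℝ) → ℝ) : Prop := ∃ T, Good T ∧ ∀ p, φ p = ev T p

theorem ev_append (T T' : List (ℚ × List ℕ)) (p : ℕ → ℝ) : ev (T ++ T') p = ev T p + ev T' p := by
  simp [ev]

theorem ev_cons (m : ℚ × List ℕ) (T : List (ℚ × List ℕ)) (p : ℕ → ℝ) :
    ev (m :: T) p = (m.1 : ℝ) * (m.2.map p).prod + ev T p := by
  simp [ev]

theorem rep_const (c : ℚ) : Rep fun _ => (c : ℝ) := by
  refine ⟨[(c, [])], ?_, fun p => by simp [ev]⟩
  intro m hm k hk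
  rw [List.mem_singleton] at hm
  subst hm
  simp at hk

theorem rep_var {k : ℕ} (hk : 1 ≤ k) : Rep fun p => p k := by
  refine ⟨[(1, [k])], ?_, fun p => by simp [ev]⟩
  intro m hm j hj
  rw [List.mem_singleton] at hm
  subst hm
  rw [List.mem_singleton] at hj
  omega

theorem rep_add {φ ψ : (ℕ → ℝ) → ℝ} (h1 : Rep φ) (h2 : Rep ψ) : Rep fun p => φ p + ψ p := by
  obtain ⟨T, hT, e1⟩ := h1
  obtain ⟨T', hT', e2⟩ := h2
  refine ⟨T ++ T', ?_, fun p => by rw [ev_append, ← e1, ← e2]⟩
  intro m hm
  rcases List.mem_append.1 hm with h | h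
  · exact hT m h
  · exact hT' m h

theorem ev_mul_one (m : ℚ × List ℕ) (T : List (ℚ × List ℕ)) (p : ℕ → ℝ) :
    ev (T.map fun m' => (m.1 * m'.1, m.2 ++ m'.2)) p = (m.1 : ℝ) * (m.2.map p).prod * ev T p := by
  induction T with
  | nil => simp [ev]
  | cons m' T ih =>
    rw [List.map_cons, ev_cons, ih, ev_cons]
    simp only [List.map_append, List.prod_append]
    push_cast
    ring

theorem rep_mul {φ ψ : (ℕ → ℝ) → ℝ} (h1 : Rep φ) (h2 : Rep ψ) : Rep fun p => φ p * ψ p := by
  obtain ⟨T, hT, e1⟩ := h1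
  obtain ⟨T', hT', e2⟩ := h2
  refine ⟨T.flatMap fun m => T'.map fun m' => (m.1 * m'.1, m.2 ++ m'.2), ?_, fun p => ?_⟩
  · intro m hm k hk
    obtain ⟨m1, hm1, h⟩ := List.mem_flatMap.1 hm
    obtain ⟨m2, hm2, rfl⟩ := List.mem_map.1 h
    rcases List.mem_append.1 hk with h | h
    · exact hT m1 hm1 k h
    · exact hT' m2 hm2 k h
  · change φ p * ψ p = _
    rw [e1, e2]
    clear e1 e2 hT
    induction T with
    | nil => simp [ev]
    | cons m T ih => rw [List.flatMap_cons, ev_append, ev_mul_one, ev_cons, ← ih, add_mul]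

theorem rep_pow {φ : (ℕ → ℝ) → ℝ} (h : Rep φ) (n : ℕ) : Rep fun p => φ p ^ n := by
  induction n with
  | zero => simpa using rep_const 1
  | succ n ih => simpa only [pow_succ] using rep_mul ih h

theorem rep_sum {ι : Type} (s : Finset ι) (φ : ι → (ℕ → ℝ) → ℝ) (h : ∀ i ∈ s, Rep (φ i)) :
    Rep fun p => ∑ i ∈ s, φ i p := by
  classical
  induction s using Finset.induction_on with
  | empty => simpa using rep_const 0
  | insert a s ha ih =>
    simp only [Finset.sum_insert ha]
    exact rep_add (h a (Finset.mem_insert_self _ _)) (ih fun i hi => h i (Finset.mem_insert_of_mem hi))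

theorem rep_aeval {ι : Type} (q : MvPolynomial ι ℤ) (φ : ι → (ℕ → ℝ) → ℝ) (h : ∀ i, Rep (φ i)) :
    Rep fun p => MvPolynomial.aeval (fun i => φ i p) q := by
  induction q using MvPolynomial.induction_on with
  | C a =>
    have := rep_const (a : ℚ)
    simpa using this
  | add p q hp hq =>
    simp only [map_add]
    exact rep_add hp hq
  | mul_X p i hp =>
    simp only [map_mul, MvPolynomial.aeval_X]
    exact rep_mul hp (h i)

/-- the linear form in the power sums given by a polynomial -/
noncomputable def lin (R : ℚ[X]) (p : ℕ → ℝ) : ℝ :=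
  ∑ k ∈ Finset.range R.natDegree, (R.coeff (k + 1) : ℝ) * p (k + 1)

theorem rep_lin (R : ℚ[X]) : Rep (lin R) :=
  rep_sum _ _ fun k _ => rep_mul (rep_const _) (rep_var (by omega))

/-- the power sums of a list of numbers -/
noncomputable def psum (ys : List ℝ) (k : ℕ) : ℝ := (ys.map fun y => y ^ k).sum

theorem lin_psum (R : ℚ[X]) (hR : R.eval 0 = 0) (ys : List ℝ) :
    lin R (psum ys) = (ys.map fun y => aeval y R).sum := by
  have h0 : R.coeff 0 = 0 := by rw [coeff_zero_eq_eval_zero, hR]
  have h1 : ∀ y : ℝ, aeval y R = ∑ k ∈ Finset.range R.natDegree, (R.coeff (k + 1) : ℝ) * y ^ (k + 1) := by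
    intro y
    rw [aeval_eq_sum_range, Finset.sum_range_succ', h0, zero_smul, add_zero]
    refine Finset.sum_congr rfl fun k _ => ?_
    rw [Rat.smul_def]
  induction ys with
  | nil => simp [lin, psum]
  | cons y ys ih =>
    rw [List.map_cons, List.sum_cons, ← ih, h1 y]
    unfold lin
    rw [← Finset.sum_add_distrib]
    refine Finset.sum_congr rfl fun k _ => ?_
    simp only [psum, List.map_cons, List.sum_cons]
    ring

/-! ### Homogenisation -/

/-- homogenisation -/
def hom (d : ℕ) (T : List (ℚ × List ℕ)) : List (ℚ × List ℕ) :=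
  T.map fun m => (m.1 * 2 ^ m.2.sum,
    m.2 ++ (List.replicate (d - m.2.sum) 3 ++ List.replicate m.2.sum 2))

theorem good_hom {d : ℕ} {T : List (ℚ × List ℕ)} (hT : Good T) : Good (hom d T) := by
  intro m hm k hk
  obtain ⟨m', hm', rfl⟩ := List.mem_map.1 hm
  rcases List.mem_append.1 hk with h | h
  · exact hT m' hm' k h
  · rcases List.mem_append.1 h with h | h
    · rw [List.eq_of_mem_replicate h]; norm_num
    · rw [List.eq_of_mem_replicate h]; norm_num

theorem weight_hom {d : ℕ} {T : List (ℚ × List ℕ)} (hd : ∀ m ∈ T, m.2.sum ≤ d) :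
    ∀ m ∈ hom d T, m.2.sum = 3 * d := by
  intro m hm
  obtain ⟨m', hm', rfl⟩ := List.mem_map.1 hm
  have := hd m' hm'
  simp only [List.sum_append, List.sum_replicate, smul_eq_mul]
  omega

theorem prod_div (l : List ℕ) (p : ℕ → ℝ) (t : ℝ) :
    (l.map fun k => p k / t ^ k).prod = (l.map p).prod / t ^ l.sum := by
  induction l with
  | nil => simp
  | cons k l ih =>
    simp only [List.map_cons, List.prod_cons, List.sum_cons, ih, pow_add]
    rw [div_mul_div_comm]

theorem ev_hom {d : ℕ} {T : List (ℚ × List ℕ)} (hd : ∀ m ∈ T, m.2.sum ≤ d) (p : ℕ → ℝ)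
    (h2 : p 2 ≠ 0) (h3 : p 3 ≠ 0) :
    ev (hom d T) p = p 3 ^ d * ev T (fun k => p k / (p 3 / (2 * p 2)) ^ k) := by
  induction T with
  | nil => simp [ev, hom]
  | cons m T ih =>
    have h1 : ev (hom d (m :: T)) p = ev [((m.1 * 2 ^ m.2.sum,
      m.2 ++ (List.replicate (d - m.2.sum) 3 ++ List.replicate m.2.sum 2)) : ℚ × List ℕ)] p + ev (hom d T) p := by
      rw [← ev_append]; rfl
    rw [h1, ih fun m' hm' => hd m' (List.mem_cons_of_mem _ hm'), ev_cons m T, prod_div, mul_add]
    congr 1
    have hw := hd m (List.mem_cons_self ..)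
    obtain ⟨e, he⟩ : ∃ e, d = m.2.sum + e := ⟨d - m.2.sum, by omega⟩
    have he' : d - m.2.sum = e := by omega
    rw [he']
    simp only [ev, List.map_cons, List.map_nil, List.sum_cons, List.sum_nil, List.map_append,
      List.prod_append, List.map_replicate, List.prod_replicate]
    push_cast
    rw [add_zero, div_pow, he, pow_add]
    set w := m.2.sum
    have h4 : (p 3) ^ w ≠ 0 := pow_ne_zero _ h3
    field_simp
    ring

theorem psum_scale (ys : List ℝ) (t : ℝ) :
    (fun k => psum ys k / t ^ k) = psum (ys.map fun y => y / t) := by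
  funext k
  unfold psum
  rw [List.map_map]
  induction ys with
  | nil => simp
  | cons y ys ih =>
    simp only [List.map_cons, List.sum_cons, add_div, ih, Function.comp_apply, div_pow]

end Pool.Agent.Q318.SymF
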