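import Mathlib
import Pool.Agent.Helper702.PolyA
import Pool.Agent.Q318.SymF.Rep

/-!
# The key construction
-/

set_option autoImplicit false

namespace Pool.Agent.Q318.SymF

open Polynomial

/-- the constraint on sizes of the constants -/
theorem sum_abs_le {N e : ℕ} {K : ℝ} (m : ℝ → ℕ → ℤ)
    (hm : ∀ y : ℝ, ∀ b, b ≤ N → |aeval y (cnt N b) - m y b| ≤ K * aeval y (pen N e))
    (ys : List ℝ) (b : ℕ) (hb : b ≤ N) :
    |(ys.map fun y => aeval y (cnt N b)).sum - ((ys.map fun y => m y b).sum : ℤ)| ≤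
      K * (ys.map fun y => aeval y (pen N e)).sum := by
  induction ys with
  | nil => simp
  | cons y ys ih =>
    simp only [List.map_cons, List.sum_cons]
    rw [Int.cast_add]
    have h1 := hm y b hb
    have h2 : aeval y (cnt N b) + (ys.map fun y => aeval y (cnt N b)).sum -
        ((m y b : ℝ) + ((ys.map fun y => m y b).sum : ℤ)) =
        (aeval y (cnt N b) - m y b) +
        ((ys.map fun y => aeval y (cnt N b)).sum - ((ys.map fun y => m y b).sum : ℤ)) := by ring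
    rw [h2, mul_add]
    exact (abs_add_le _ _).trans (add_le_add h1 ih)

theorem sum_nonneg_pen {N e : ℕ} (ys : List ℝ) : 0 ≤ (ys.map fun y => aeval y (pen N e)).sum := by
  apply List.sum_nonneg
  intro z hz
  obtain ⟨y, _, rfl⟩ := List.mem_map.1 hz
  exact pen_nonneg N e y

theorem cnt_zero {N b : ℕ} (hb : b ≤ N) (hb0 : b ≠ 0) : (cnt N b).eval 0 = 0 := by
  have := cnt_eval (N := N) (a := 0) (b := b) (Nat.zero_le _) hb
  rw [if_neg (fun h => hb0 h.symm)] at this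
  simpa using this

theorem pen_zero {N e : ℕ} : (pen N e).eval 0 = 0 := by
  have := pen_eval_node (N := N) (e := e) (a := 0) (Nat.zero_le _)
  simpa using this

theorem aeval_nat (R : ℚ[X]) (b : ℕ) : aeval (b : ℝ) R = ((R.eval (b : ℚ) : ℚ) : ℝ) := by
  have : ((b : ℕ) : ℝ) = algebraMap ℚ ℝ (b : ℚ) := by simp
  rw [this, aeval_algebraMap_apply_eq_algebraMap_eval]
  simp

theorem sum_cnt {N c : ℕ} (hc : c ≤ N) (L : List ℕ) (hL : ∀ b ∈ L, b ≤ N) :
    ((L.map fun b : ℕ => (b : ℝ)).map fun y => aeval y (cnt N c)).sum = (L.count c : ℝ) := by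
  induction L with
  | nil => simp
  | cons b L ih =>
    rw [List.map_cons, List.map_cons, List.sum_cons, ih fun b' hb' => hL b' (List.mem_cons_of_mem _ hb'),
      aeval_nat, cnt_eval (hL b (List.mem_cons_self ..)) hc, List.count_cons]
    by_cases h : b = c
    · subst h
      simp [add_comm]
    · simp [h]

theorem sum_pen {N e : ℕ} (L : List ℕ) (hL : ∀ b ∈ L, b ≤ N) :
    ((L.map fun b : ℕ => (b : ℝ)).map fun y => aeval y (pen N e)).sum = 0 := by
  induction L with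
  | nil => simp
  | cons b L ih =>
    rw [List.map_cons, List.map_cons, List.sum_cons, ih fun b' hb' => hL b' (List.mem_cons_of_mem _ hb'),
      aeval_nat, pen_eval_node (hL b (List.mem_cons_self ..))]
    simp

/-- a list with prescribed numbers of entries `3, …, N` -/
theorem exists_list (u : ℕ → ℕ) (N : ℕ) : ∃ L : List ℕ, (∀ b ∈ L, 3 ≤ b ∧ b ≤ N) ∧
    ∀ c, 3 ≤ c → c ≤ N → L.count c = u c := by
  induction N with
  | zero => exact ⟨[], by simp, fun c h1 h2 => by omega⟩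
  | succ N ih =>
    obtain ⟨L, h1, h2⟩ := ih
    by_cases hN : 3 ≤ N + 1
    · refine ⟨L ++ List.replicate (u (N + 1)) (N + 1), ?_, ?_⟩
      · intro b hb
        rcases List.mem_append.1 hb with hb | hb
        · have := h1 b hb
          omega
        · have := List.eq_of_mem_replicate hb
          omega
      · intro c h3 h4
        rw [List.count_append]
        by_cases hc : c = N + 1
        · subst hc
          rw [List.count_replicate_self, List.count_eq_zero_of_not_mem, zero_add]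
          intro h
          have := h1 _ h
          omega
        · rw [h2 c h3 (by omega), List.count_eq_zero_of_not_mem (l := List.replicate _ _), add_zero]
          intro h
          exact hc (List.eq_of_mem_replicate h)
    · exact ⟨[], by simp, fun c h3 h4 => by omega⟩

/-- adding ones makes the third power sum twice the second one -/
theorem exists_config (u : ℕ → ℕ) (N : ℕ) (hN : 2 ≤ N) : ∃ L : List ℕ, (∀ b ∈ L, b ≤ N) ∧
    (∀ c, 3 ≤ c → c ≤ N → L.count c = u c) ∧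
    0 < psum (L.map fun b : ℕ => (b : ℝ)) 2 ∧
    psum (L.map fun b : ℕ => (b : ℝ)) 3 = 2 * psum (L.map fun b : ℕ => (b : ℝ)) 2 := by
  obtain ⟨L, h1, h2⟩ := exists_list u N
  have key : ∀ L : List ℕ, (∀ b ∈ L, 2 ≤ b) →
      psum (L.map fun b : ℕ => (b : ℝ)) 3 = 2 * psum (L.map fun b : ℕ => (b : ℝ)) 2 +
        ((L.map fun b => b ^ 2 * (b - 2)).sum : ℕ) := by
    intro L hL
    induction L with
    | nil => simp [psum]
    | cons b L ih =>
      have h3 := ih fun b' hb' => hL b' (List.mem_cons_of_mem _ hb')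
      simp only [psum, List.map_cons, List.sum_cons] at h3 ⊢
      rw [h3]
      have h4 := hL b (List.mem_cons_self ..)
      push_cast [Nat.cast_sub h4]
      ring
  have hL2 : ∀ b ∈ 2 :: L, 2 ≤ b := by
    intro b hb
    rcases List.mem_cons.1 hb with rfl | hb
    · exact le_refl _
    · have := h1 b hb
      omega
  set D := ((2 :: L).map fun b => b ^ 2 * (b - 2)).sum with hD
  have hpa : ∀ (A B : List ℕ) (k : ℕ), psum ((A ++ B).map fun b : ℕ => (b : ℝ)) k =
      psum (A.map fun b : ℕ => (b : ℝ)) k + psum (B.map fun b : ℕ => (b : ℝ)) k := by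
    intro A B k
    simp [psum]
  have hone : ∀ k : ℕ, psum ((List.replicate D 1).map fun b : ℕ => (b : ℝ)) k = D := by
    intro k
    simp [psum]
  have hpos : ∀ L : List ℕ, 0 ≤ psum (L.map fun b : ℕ => (b : ℝ)) 2 := by
    intro L
    apply List.sum_nonneg
    intro z hz
    obtain ⟨y, _, rfl⟩ := List.mem_map.1 hz
    positivity
  refine ⟨(2 :: L) ++ List.replicate D 1, ?_, ?_, ?_, ?_⟩
  · intro b hb
    rcases List.mem_append.1 hb with hb | hb
    · rcases List.mem_cons.1 hb with rfl | hb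
      · exact hN
      · exact (h1 b hb).2
    · have := List.eq_of_mem_replicate hb
      omega
  · intro c h3 h4
    rw [List.count_append, List.count_cons, h2 c h3 h4, List.count_eq_zero_of_not_mem (l := List.replicate _ _)]
    · have : (2 == c) = false := by
        rw [beq_eq_false_iff_ne]; omega
      simp [this]
    · intro h
      have := List.eq_of_mem_replicate h
      omega
  · rw [hpa, hone]
    have : psum ((2 :: L).map fun b : ℕ => (b : ℝ)) 2 = 4 + psum (L.map fun b : ℕ => (b : ℝ)) 2 := by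
      simp only [psum, List.map_cons, List.sum_cons]
      norm_num
    rw [this]
    have := hpos L
    positivity
  · rw [hpa, hpa, hone, hone, key _ hL2, ← hD]
    ring

theorem aeval_int {k : ℕ} (n : Fin k → ℤ) (q : MvPolynomial (Fin k) ℤ) :
    MvPolynomial.aeval (fun j => (n j : ℝ)) q = ((MvPolynomial.aeval n q : ℤ) : ℝ) :=
  MvPolynomial.aeval_algebraMap_apply (B := ℝ) n q

theorem lip_use {k : ℕ} (q : MvPolynomial (Fin k) ℤ) (C W K S : ℝ) (d D : ℕ) (x y : Fin k → ℝ)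
    (hC : 0 < C) (hd : d ≤ D) (hK : 0 < K) (hS : 0 ≤ S) (hW : 1 ≤ W)
    (hl : ∀ x y : Fin k → ℝ, (∀ i, |x i - y i| ≤ 1 / 2) →
            |MvPolynomial.aeval x q - MvPolynomial.aeval y q| ≤ C * (1 + ‖x‖) ^ d * ‖x - y‖)
    (hxy : ∀ i, |x i - y i| ≤ 1 / 2) (hdist : ‖x - y‖ ≤ 2 * K * S) (hnorm : 1 + ‖x‖ ≤ 2 * W) :
    MvPolynomial.aeval y q - C * (2 ^ (D + 1) * K * (W ^ D * S)) ≤ MvPolynomial.aeval x q := by
  have h1 := hl x y hxy
  have h0 : 0 ≤ ‖x‖ := norm_nonneg x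
  have h2 : (1 + ‖x‖) ^ d ≤ (2 * W) ^ D :=
    (pow_le_pow_left₀ (by linarith) hnorm d).trans (pow_le_pow_right₀ (by linarith) hd)
  have h3 : C * (1 + ‖x‖) ^ d * ‖x - y‖ ≤ C * (2 * W) ^ D * (2 * K * S) := by
    apply mul_le_mul (mul_le_mul_of_nonneg_left h2 hC.le) hdist (norm_nonneg _)
    have : 0 ≤ W := by linarith
    positivity
  have h4 : C * (2 * W) ^ D * (2 * K * S) = C * (2 ^ (D + 1) * K * (W ^ D * S)) := by
    rw [mul_pow, pow_succ]; ring
  rw [h4] at h3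
  have h5 := (abs_le.1 h1).1
  linarith

theorem arith_small {a C0 C1 C2 e0 e1 e2 n0 n1 n2 V R M K : ℝ} (D : ℕ) (ha : 0 ≤ a) (hV : 0 ≤ V)
    (hR : R = 2 ^ (D + 1) * K * V)
    (h0 : n0 - C0 * R ≤ e0) (h1 : n1 - C1 * R ≤ e1) (h2 : n2 - C2 * R ≤ e2)
    (hn : 1 ≤ n0 + a * n1 + a ^ 2 * n2)
    (hM : 2 ^ (D + 2) * K * (C0 + a * C1 + a ^ 2 * C2) ≤ M) :
    0 < 2 * (e0 + a * e1 + a ^ 2 * e2) - 1 + M * V := by
  have q1 := mul_le_mul_of_nonneg_left h1 ha
  have q2 := mul_le_mul_of_nonneg_left h2 (sq_nonneg a)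
  have h6 := mul_le_mul_of_nonneg_right hM hV
  have h7 : 2 ^ (D + 2) * K * (C0 + a * C1 + a ^ 2 * C2) * V = 2 * (C0 * R + a * (C1 * R) + a ^ 2 * (C2 * R)) := by
    rw [hR, pow_succ 2 (D + 1)]; ring
  rw [h7] at h6
  have q1' : a * (n1 - C1 * R) = a * n1 - a * (C1 * R) := by ring
  have q2' : a ^ 2 * (n2 - C2 * R) = a ^ 2 * n2 - a ^ 2 * (C2 * R) := by ring
  rw [q1'] at q1
  rw [q2'] at q2
  linarith

theorem arith_large {E M V S K : ℝ} (hE : 0 ≤ E) (hM : 4 * K < M) (hK : 0 < K) (hS : 0 ≤ S) (hV : S ≤ V)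
    (hs : 1 / 2 < 2 * K * S) : 0 < 2 * E - 1 + M * V := by
  have h3 : 4 * K * S ≤ M * S := mul_le_mul_of_nonneg_right hM.le hS
  have h4 : M * S ≤ M * V := mul_le_mul_of_nonneg_left hV (by linarith)
  linarith

/-- **Key construction.** -/
theorem key {H : ℕ → Prop} (hH : REPred H) : ∃ T0 T1 T2 : List (ℚ × List ℕ), Good T0 ∧ Good T1 ∧ Good T2 ∧
    (∀ a : ℕ, ¬ H a → ∀ ys : List ℝ,
      0 < ev T0 (psum ys) + a * ev T1 (psum ys) + (a : ℝ) ^ 2 * ev T2 (psum ys)) ∧
    (∀ a : ℕ, H a → ∃ ys : List ℝ, (∀ y ∈ ys, 0 ≤ y) ∧ 0 < psum ys 2 ∧ psum ys 3 = 2 * psum ys 2 ∧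
      ev T0 (psum ys) + a * ev T1 (psum ys) + (a : ℝ) ^ 2 * ev T2 (psum ys) < 0) := by
  classical
  obtain ⟨k, p0, p1, p2, hnn, hHk⟩ := Pool.Agent.Helper702.re_mv hH
  obtain ⟨C0, D0, hC0, -, l0⟩ := Pool.Agent.Helper702.mv_lip p0
  obtain ⟨C1, D1, hC1, -, l1⟩ := Pool.Agent.Helper702.mv_lip p1
  obtain ⟨C2, D2, hC2, -, l2⟩ := Pool.Agent.Helper702.mv_lip p2
  obtain ⟨N, hN⟩ : ∃ N, N = 2 * k + 2 := ⟨_, rfl⟩
  obtain ⟨e, K, hK, hcount⟩ := exists_count N
  choose m hm using hcount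
  obtain ⟨D, hD⟩ : ∃ D, D = D0 + D1 + D2 := ⟨_, rfl⟩
  have hbp : ∀ j : Fin k, 3 + 2 * (j : ℕ) ≤ N := fun j => by have := j.2; omega
  have hbm : ∀ j : Fin k, 4 + 2 * (j : ℕ) ≤ N := fun j => by have := j.2; omega
  obtain ⟨nu, hnudef⟩ : ∃ nu : Fin k → (ℕ → ℝ) → ℝ, ∀ j p, nu j p =
    lin (cnt N (3 + 2 * j)) p + ((-1 : ℚ) : ℝ) * lin (cnt N (4 + 2 * j)) p := ⟨_, fun _ _ => rfl⟩
  obtain ⟨S, hSdef⟩ : ∃ S : (ℕ → ℝ) → ℝ, ∀ p, S p = lin (pen N e) p := ⟨_, fun _ => rfl⟩
  obtain ⟨W, hWdef⟩ : ∃ W : (ℕ → ℝ) → ℝ, ∀ p, W p = ((1 : ℚ) : ℝ) + ∑ j, nu j p ^ 2 := ⟨_, fun _ => rfl⟩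
  obtain ⟨c0, hc0⟩ := exists_nat_ge (2 ^ (D + 2) * K * C0 + 4 * K + 1)
  obtain ⟨c1, hc1⟩ := exists_nat_ge (2 ^ (D + 2) * K * C1)
  obtain ⟨c2, hc2⟩ := exists_nat_ge (2 ^ (D + 2) * K * C2)
  obtain ⟨g, hgdef⟩ : ∃ g : MvPolynomial (Fin k) ℤ → ℕ → ℤ → (ℕ → ℝ) → ℝ, ∀ q c z p, g q c z p =
    ((2 : ℚ) : ℝ) * MvPolynomial.aeval (fun j => nu j p) q + (((c : ℚ) : ℝ) * (W p ^ D * S p) + ((z : ℚ) : ℝ)) :=
    ⟨_, fun _ _ _ _ => rfl⟩
  have hnu : ∀ j, Rep (nu j) := fun j => by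
    have h1 : nu j = fun p => lin (cnt N (3 + 2 * j)) p + ((-1 : ℚ) : ℝ) * lin (cnt N (4 + 2 * j)) p :=
      funext (hnudef j)
    rw [h1]
    exact rep_add (rep_lin _) (rep_mul (rep_const _) (rep_lin _))
  have hS' : Rep S := by
    have h1 : S = lin (pen N e) := funext hSdef
    rw [h1]
    exact rep_lin _
  have hW : Rep W := by
    have h1 : W = fun p => ((1 : ℚ) : ℝ) + ∑ j, nu j p ^ 2 := funext hWdef
    rw [h1]
    exact rep_add (rep_const _) (rep_sum _ _ fun j _ => rep_pow (hnu j) 2)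
  have hg : ∀ q c z, Rep (g q c z) := fun q c z => by
    have h1 : g q c z = fun p => ((2 : ℚ) : ℝ) * MvPolynomial.aeval (fun j => nu j p) q +
      (((c : ℚ) : ℝ) * (W p ^ D * S p) + ((z : ℚ) : ℝ)) := funext (hgdef q c z)
    rw [h1]
    exact rep_add (rep_mul (rep_const _) (rep_aeval q nu hnu))
      (rep_add (rep_mul (rep_const _) (rep_mul (rep_pow hW D) hS')) (rep_const _))
  obtain ⟨T0, hT0, e0⟩ := hg p0 c0 (-1)
  obtain ⟨T1, hT1, e1⟩ := hg p1 c1 0
  obtain ⟨T2, hT2, e2⟩ := hg p2 c2 0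
  have hform : ∀ (a : ℕ) (p : ℕ → ℝ), g p0 c0 (-1) p + a * g p1 c1 0 p + (a : ℝ) ^ 2 * g p2 c2 0 p =
      2 * (MvPolynomial.aeval (fun j => nu j p) p0 + a * MvPolynomial.aeval (fun j => nu j p) p1 +
        (a : ℝ) ^ 2 * MvPolynomial.aeval (fun j => nu j p) p2) - 1 +
        (c0 + a * c1 + (a : ℝ) ^ 2 * c2) * (W p ^ D * S p) := by
    intro a p
    rw [hgdef, hgdef, hgdef]
    push_cast
    ring
  refine ⟨T0, T1, T2, hT0, hT1, hT2, ?_, ?_⟩
  · intro a ha ys
    rw [← e0, ← e1, ← e2, hform]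
    obtain ⟨p, hp⟩ : ∃ p, p = psum ys := ⟨_, rfl⟩
    rw [← hp]
    have hS : S p = (ys.map fun y => aeval y (pen N e)).sum := by
      rw [hSdef, hp]; exact lin_psum _ pen_zero ys
    have hS0 : 0 ≤ S p := by rw [hS]; exact sum_nonneg_pen ys
    obtain ⟨x, hx⟩ : ∃ x : Fin k → ℝ, x = fun j => nu j p := ⟨_, rfl⟩
    rw [← hx]
    obtain ⟨n, hn⟩ : ∃ n : Fin k → ℤ, ∀ j, n j =
      (ys.map fun y => m y (3 + 2 * j)).sum - (ys.map fun y => m y (4 + 2 * j)).sum := ⟨_, fun _ => rfl⟩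
    have hxn : ∀ j, |x j - (n j : ℝ)| ≤ 2 * K * S p := by
      intro j
      have h1 := sum_abs_le m hm ys _ (hbp j)
      have h2 := sum_abs_le m hm ys _ (hbm j)
      rw [← hS] at h1 h2
      have h3 : x j = (ys.map fun y => aeval y (cnt N (3 + 2 * j))).sum -
          (ys.map fun y => aeval y (cnt N (4 + 2 * j))).sum := by
        rw [hx]
        simp only [hnudef]
        rw [hp, lin_psum _ (cnt_zero (hbp j) (by omega)), lin_psum _ (cnt_zero (hbm j) (by omega))]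
        push_cast
        ring
      have h4 : x j - (n j : ℝ) =
          ((ys.map fun y => aeval y (cnt N (3 + 2 * j))).sum - ((ys.map fun y => m y (3 + 2 * j)).sum : ℤ)) -
          ((ys.map fun y => aeval y (cnt N (4 + 2 * j))).sum - ((ys.map fun y => m y (4 + 2 * j)).sum : ℤ)) := by
        rw [h3, hn, Int.cast_sub]
        ring
      rw [h4]
      refine (abs_sub _ _).trans ?_
      linarith
    have hE0 := hnn a x
    have hWx : W p = 1 + ∑ j, x j ^ 2 := by rw [hWdef, hx]; push_cast; rfl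
    have hW1 : 1 ≤ W p := by
      rw [hWx]
      have : 0 ≤ ∑ j, x j ^ 2 := Finset.sum_nonneg fun _ _ => sq_nonneg _
      linarith
    have hWD : 1 ≤ W p ^ D := one_le_pow₀ hW1
    have ha0 : (0 : ℝ) ≤ a := Nat.cast_nonneg a
    have hMlow : 2 ^ (D + 2) * K * (C0 + a * C1 + (a : ℝ) ^ 2 * C2) + 4 * K + 1 ≤
        c0 + a * c1 + (a : ℝ) ^ 2 * c2 := by
      have h1 := mul_le_mul_of_nonneg_left hc1 ha0
      have h2 := mul_le_mul_of_nonneg_left hc2 (sq_nonneg (a : ℝ))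
      linarith
    have hWS : S p ≤ W p ^ D * S p := le_mul_of_one_le_left hS0 hWD
    by_cases hs : 2 * K * S p ≤ 1 / 2
    · have hint' : (1 : ℝ) ≤ MvPolynomial.aeval (fun j => (n j : ℝ)) p0 +
          a * MvPolynomial.aeval (fun j => (n j : ℝ)) p1 +
          (a : ℝ) ^ 2 * MvPolynomial.aeval (fun j => (n j : ℝ)) p2 := by
        have h1 : (MvPolynomial.aeval n p0 + a * MvPolynomial.aeval n p1 +
          (a : ℤ) ^ 2 * MvPolynomial.aeval n p2 : ℤ) ≠ 0 := fun h => ha ((hHk a).2 ⟨n, h⟩)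
        have h3 := hnn a (fun j => (n j : ℝ))
        rw [aeval_int, aeval_int, aeval_int] at h3 ⊢
        have h2 : 0 ≤ (MvPolynomial.aeval n p0 + a * MvPolynomial.aeval n p1 +
          (a : ℤ) ^ 2 * MvPolynomial.aeval n p2 : ℤ) := by exact_mod_cast h3
        have h5 : 1 ≤ (MvPolynomial.aeval n p0 + a * MvPolynomial.aeval n p1 +
          (a : ℤ) ^ 2 * MvPolynomial.aeval n p2 : ℤ) := by omega
        exact_mod_cast h5
      have hnorm : 1 + ‖x‖ ≤ 2 * W p := by
        have : ‖x‖ ≤ W p := by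
          rw [pi_norm_le_iff_of_nonneg (by linarith)]
          intro j
          rw [Real.norm_eq_abs, hWx]
          have h1 : |x j| ≤ 1 + x j ^ 2 := by
            rw [abs_le]; constructor <;> nlinarith [sq_nonneg (x j + 1), sq_nonneg (x j - 1)]
          have h2 : x j ^ 2 ≤ ∑ j, x j ^ 2 :=
            Finset.single_le_sum (f := fun j => x j ^ 2) (fun _ _ => sq_nonneg _) (Finset.mem_univ j)
          linarith
        linarith
      have hdist : ‖x - fun j => (n j : ℝ)‖ ≤ 2 * K * S p := by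
        rw [pi_norm_le_iff_of_nonneg (by positivity)]
        intro j
        rw [Real.norm_eq_abs]
        exact hxn j
      have hh : ∀ i, |x i - (fun j => (n j : ℝ)) i| ≤ 1 / 2 := fun i => (hxn i).trans hs
      have q0 := lip_use p0 C0 (W p) K (S p) D0 D x _ hC0 (by omega) hK hS0 hW1 l0 hh hdist hnorm
      have q1 := lip_use p1 C1 (W p) K (S p) D1 D x _ hC1 (by omega) hK hS0 hW1 l1 hh hdist hnorm
      have q2 := lip_use p2 C2 (W p) K (S p) D2 D x _ hC2 (by omega) hK hS0 hW1 l2 hh hdist hnorm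
      exact arith_small D ha0 (by positivity) rfl q0 q1 q2 hint' (by linarith)
    · push Not at hs
      refine arith_large hE0 ?_ hK hS0 hWS hs
      have : 0 ≤ 2 ^ (D + 2) * K * (C0 + a * C1 + (a : ℝ) ^ 2 * C2) := by positivity
      linarith
  · intro a ha
    obtain ⟨n, hn⟩ := (hHk a).1 ha
    obtain ⟨L, hL1, hL2, hL3, hL4⟩ := exists_config
      (fun c => if h : (c - 3) / 2 < k then
        (if c % 2 = 1 then (n ⟨(c - 3) / 2, h⟩).toNat else (-n ⟨(c - 3) / 2, h⟩).toNat) else 0) N (by omega)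
    refine ⟨L.map fun b : ℕ => (b : ℝ), ?_, hL3, hL4, ?_⟩
    · intro y hy
      obtain ⟨b, _, rfl⟩ := List.mem_map.1 hy
      exact Nat.cast_nonneg b
    · rw [← e0, ← e1, ← e2, hform]
      obtain ⟨ys, hys⟩ : ∃ ys, ys = L.map fun b : ℕ => (b : ℝ) := ⟨_, rfl⟩
      rw [← hys]
      obtain ⟨p, hp⟩ : ∃ p, p = psum ys := ⟨_, rfl⟩
      rw [← hp]
      have hS : S p = 0 := by
        rw [hSdef, hp, lin_psum _ pen_zero ys, hys, sum_pen L hL1]
      have hx : ∀ j, nu j p = (n j : ℝ) := by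
        intro j
        have hj1 : (3 + 2 * (j : ℕ) - 3) / 2 = j := by omega
        have hj2 : (4 + 2 * (j : ℕ) - 3) / 2 = j := by omega
        have h1 := hL2 (3 + 2 * j) (by omega) (hbp j)
        have h2 := hL2 (4 + 2 * j) (by omega) (hbm j)
        simp only [hj1, hj2, j.2, dite_true] at h1 h2
        rw [if_pos (by omega)] at h1
        rw [if_neg (by omega)] at h2
        rw [hnudef, hp, lin_psum _ (cnt_zero (hbp j) (by omega)), lin_psum _ (cnt_zero (hbm j) (by omega)), hys,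
          sum_cnt (hbp j) L hL1, sum_cnt (hbm j) L hL1, h1, h2]
        have h3 : (((n j).toNat : ℤ) : ℝ) - (((-n j).toNat : ℤ) : ℝ) = ((n j : ℤ) : ℝ) := by
          rw [← Int.cast_sub]
          congr 1
          omega
        simp only [Int.cast_natCast] at h3
        push_cast
        linarith
      have hx' : (fun j => nu j p) = fun j => ((n j : ℤ) : ℝ) := funext hx
      have h5 : ((MvPolynomial.aeval n p0 : ℤ) : ℝ) + a * ((MvPolynomial.aeval n p1 : ℤ) : ℝ) +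
          (a : ℝ) ^ 2 * ((MvPolynomial.aeval n p2 : ℤ) : ℝ) = 0 := by exact_mod_cast hn
      rw [hx', aeval_int, aeval_int, aeval_int, h5, hS]
      norm_num

end Pool.Agent.Q318.SymF
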